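import Mathlib
import Pool.Agent.D0H94.T13.StmC
import Pool.Agent.D0H81.FT.Mix

/-! Project FM, module CONC: concentration of mixtures over a random number of steps. -/

set_option autoImplicit false

open Filter Topology Finset

namespace Pool.Agent.D0H74.FM

open Pool.Agent.D0H94.T13 Pool.Agent.D0H81.FT

/-- the normalised coefficient -/
noncomputable def B (p : ℝ) (k N : ℕ) : ℝ := if 2 * k ≤ N then (bin p k).coeff (N - 2 * k) else 0

theorem B_nonneg {p : ℝ} (h0 : 0 < p) (h1 : p < 1) (k N : ℕ) : 0 ≤ B p k N := by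
  unfold B
  split_ifs
  · exact b_nonneg h0 h1 _ _
  · exact le_rfl

theorem kc_eq {μ ν : ℝ} (hμ : 1 < μ) (hν : ν = μ ^ 2 * (μ / (1 + μ))) (k N : ℕ) :
    (kc k N : ℝ) = μ ^ N * ((ν ^ k)⁻¹ * B (1 / (1 + μ)) k N) := by
  have hμ0 : 0 < μ := by linarith
  unfold kc B
  by_cases h : 2 * k ≤ N
  · rw [if_pos h, if_pos h]
    have h1 := choose_eq hμ k 0 (N - 2 * k)
    have h2 : 2 * k + 0 + (N - 2 * k) = N := by omega
    rw [h2] at h1
    have h0 : 0 < μ ^ N := by positivity
    rw [div_eq_iff h0.ne'] at h1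
    rw [h1, wt, hν, pow_zero, one_mul]
    ring
  · simp [h]

theorem bin_succ (p : ℝ) (k j : ℕ) : (bin p (k + 1)).coeff (j + 1) =
    (1 - p) * (bin p k).coeff (j + 1) + p * (bin p k).coeff j := by
  unfold bin
  rw [pow_succ, mul_add, Polynomial.coeff_add, Polynomial.coeff_mul_C, ← mul_assoc,
    Polynomial.coeff_mul_X, Polynomial.coeff_mul_C]
  ring

theorem bin_succ0 (p : ℝ) (k : ℕ) : (bin p (k + 1)).coeff 0 = (1 - p) * (bin p k).coeff 0 := by
  unfold bin
  rw [pow_succ, mul_add, Polynomial.coeff_add, Polynomial.coeff_mul_C, ← mul_assoc,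
    Polynomial.coeff_mul_X_zero]
  ring

theorem B_succ (p : ℝ) (k N : ℕ) :
    B p (k + 1) (N + 3) = (1 - p) * B p k (N + 1) + p * B p k N := by
  unfold B
  by_cases h : 2 * k ≤ N
  · rw [if_pos h, if_pos (by omega), if_pos (by omega)]
    obtain ⟨j, rfl⟩ := Nat.exists_eq_add_of_le h
    have e1 : 2 * k + j + 3 - 2 * (k + 1) = j + 1 := by omega
    have e2 : 2 * k + j + 1 - 2 * k = j + 1 := by omega
    have e3 : 2 * k + j - 2 * k = j := by omega
    rw [e1, e2, e3, bin_succ]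
  · rw [if_neg h]
    by_cases h2 : 2 * k ≤ N + 1
    · have h3 : 2 * k = N + 1 := by omega
      rw [if_pos (by omega), if_pos h2]
      have e1 : N + 3 - 2 * (k + 1) = 0 := by omega
      have e2 : N + 1 - 2 * k = 0 := by omega
      rw [e1, e2, bin_succ0]
      ring
    · rw [if_neg (by omega), if_neg h2]
      ring

theorem B_zero_succ (p : ℝ) (N : ℕ) : B p 0 (N + 1) = 0 := by
  unfold B
  rw [if_pos (by omega)]
  exact b_zero 0 _ (by omega)

/-- the renewal function -/
noncomputable def U (p : ℝ) (N : ℕ) : ℝ := ∑ k ∈ range (N + 1), B p k N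

theorem U_ext (p : ℝ) (M N : ℕ) (h : N ≤ M) : ∑ k ∈ range (M + 1), B p k N = U p N := by
  unfold U
  symm
  apply sum_subset
  · intro m hm
    rw [mem_range] at hm ⊢
    omega
  · intro m _ hm
    rw [mem_range] at hm
    unfold B
    rw [if_neg (by omega)]

theorem U_rec (p : ℝ) (N : ℕ) : U p (N + 3) = (1 - p) * U p (N + 1) + p * U p N := by
  rw [← U_ext p (N + 2) (N + 1) (by omega), ← U_ext p (N + 2) N (by omega)]
  unfold U
  rw [sum_range_succ' (n := N + 3), B_zero_succ p (N + 2), add_zero, mul_sum, mul_sum, ← sum_add_distrib]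
  apply sum_congr rfl
  intro k _
  exact B_succ p k N

theorem U0 (p : ℝ) : U p 0 = 1 := by
  simp [U, B, bin]

theorem U1 (p : ℝ) : U p 1 = 0 := by
  unfold U
  rw [sum_range_succ, sum_range_one, B_zero_succ]
  simp [B]

theorem U2 (p : ℝ) : U p 2 = 1 - p := by
  unfold U
  rw [sum_range_succ, sum_range_succ, sum_range_one, B_zero_succ]
  simp [B, bin]

theorem U_lower {p : ℝ} (h0 : 0 < p) (h1 : p < 1) : ∃ δ : ℝ, 0 < δ ∧ ∀ N, δ ≤ U p (N + 2) := by
  have hp : 0 < 1 - p := by linarith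
  have u3 : U p 3 = p := by
    have := U_rec p 0
    rw [U0, U1] at this
    simpa using this
  have u4 : U p 4 = (1 - p) ^ 2 := by
    have := U_rec p 1
    rw [U1] at this
    rw [this, U2]
    ring
  refine ⟨min (1 - p) (min p ((1 - p) ^ 2)), by positivity, ?_⟩
  set δ := min (1 - p) (min p ((1 - p) ^ 2)) with hδ
  intro N
  induction N using Nat.strong_induction_on with
  | _ N ih =>
    match N with
    | 0 => rw [U2]; exact min_le_left _ _
    | 1 => rw [u3]; exact (min_le_right _ _).trans (min_le_left _ _)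
    | 2 => rw [u4]; exact (min_le_right _ _).trans (min_le_right _ _)
    | (n + 3) =>
      have a := ih (n + 1) (by omega)
      have b := ih n (by omega)
      have c := U_rec p (n + 2)
      have e1 : n + 2 + 3 = n + 3 + 2 := by omega
      have e2 : n + 2 + 1 = n + 1 + 2 := by omega
      rw [e1, e2] at c
      rw [c]
      nlinarith

theorem log_le_sqrt {x : ℝ} (hx : 0 < x) : Real.log x ≤ Real.sqrt x := by
  have hs : 0 < Real.sqrt x := Real.sqrt_pos.mpr hx
  have h1 : Real.log x = 2 * Real.log (Real.sqrt x) := by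
    rw [Real.log_sqrt hx.le]
    ring
  have h2 : Real.log (Real.sqrt x) = Real.log (Real.sqrt x / 2) + Real.log 2 := by
    rw [Real.log_div hs.ne' (by norm_num)]
    ring
  have h3 := Real.log_le_sub_one_of_pos (show 0 < Real.sqrt x / 2 by positivity)
  have h4 := Real.log_two_lt_d9
  rw [h1, h2]
  linarith


theorem nu_eq {μ ν : ℝ} (hμ : 1 < μ) (h : ν * (1 / μ ^ 2 + 1 / μ ^ 3) = 1) :
    ν = μ ^ 2 * (μ / (1 + μ)) := by
  have hμ0 : 0 < μ := by linarith
  have h1 : 1 / μ ^ 2 + 1 / μ ^ 3 = (1 + μ) / μ ^ 3 := by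
    field_simp
    ring
  rw [h1, mul_div_assoc', div_eq_iff (by positivity)] at h
  rw [mul_div_assoc', eq_div_iff (by positivity)]
  linarith

/-- the total weight is at least a constant times `μ ^ (n + 1)` -/
theorem ZZ_lower {μ ν : ℝ} (hμ : 1 < μ) (hν : 0 < ν) (hμν : ν * (1 / μ ^ 2 + 1 / μ ^ 3) = 1)
    (h : ℕ → ℝ) (c0 : ℝ) (hc0 : 0 < c0) (hlow : ∀ m, c0 * ν ^ m ≤ h m) :
    ∃ δ : ℝ, 0 < δ ∧ ∀ n, 1 ≤ n → μ ^ (n + 1) * (c0 * ν⁻¹ * δ) ≤ ZZ h n := by
  have hμ0 : 0 < μ := by linarith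
  have hp0 : 0 < 1 / (1 + μ) := by positivity
  have hp1 : 1 / (1 + μ) < 1 := by rw [div_lt_one (by linarith)]; linarith
  obtain ⟨δ, hδ, hU⟩ := U_lower hp0 hp1
  refine ⟨δ, hδ, ?_⟩
  intro n hn
  have hUn := hU (n - 1)
  have e : n - 1 + 2 = n + 1 := by omega
  rw [e] at hUn
  have hUe : U (1 / (1 + μ)) (n + 1) = ∑ m ∈ range (n + 1), B (1 / (1 + μ)) (m + 1) (n + 1) := by
    unfold U
    rw [sum_range_succ' (n := n + 1), B_zero_succ, add_zero]
  rw [hUe] at hUn
  unfold ZZ
  calc μ ^ (n + 1) * (c0 * ν⁻¹ * δ)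
      ≤ μ ^ (n + 1) * (c0 * ν⁻¹ * ∑ m ∈ range (n + 1), B (1 / (1 + μ)) (m + 1) (n + 1)) := by
        gcongr
    _ = ∑ m ∈ range (n + 1), (c0 * ν ^ m) * (μ ^ (n + 1) * ((ν ^ (m + 1))⁻¹ *
          B (1 / (1 + μ)) (m + 1) (n + 1))) := by
        rw [mul_sum, mul_sum]
        apply sum_congr rfl
        intro m _
        rw [pow_succ ν m, mul_inv]
        field_simp
    _ ≤ ∑ m ∈ range (n + 1), h m * kc (m + 1) (n + 1) := by
        apply sum_le_sum
        intro m _
        rw [kc_eq hμ (nu_eq hμ hμν)]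
        apply mul_le_mul_of_nonneg_right (hlow m)
        have := B_nonneg hp0 hp1 (m + 1) (n + 1)
        positivity

theorem t_CONC : S_CONC := by
  intro μ ν hμ hν hμν h hpos ⟨c0, hc0, hlow⟩ ⟨K, hK⟩ A hA
  have hμ0 : 0 < μ := by linarith
  have hν' := nu_eq hμ hμν
  set p := 1 / (1 + μ) with hp
  have hp0 : 0 < p := by positivity
  have hp1 : p < 1 := by rw [hp, div_lt_one (by linarith)]; linarith
  obtain ⟨δ, hδ, hZ⟩ := ZZ_lower hμ hν hμν h c0 hc0 hlow
  set K' := max K 0 with hK'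
  have hK0 : 0 ≤ K' := le_max_right _ _
  set H := 1 + h 0 + h 1 * ν⁻¹ with hHd
  have hh0 := hpos 0
  have hh1 := hpos 1
  have hH0 : 0 < h 1 * ν⁻¹ := by positivity
  have hH1 : 0 < H := by linarith
  have hHm : ∀ n m : ℕ, 2 ≤ n → m ≤ n → h m * (ν ^ m)⁻¹ ≤ H * Real.exp (K' * Real.log n ^ 2) := by
    intro n m hn hm
    have hE : 1 ≤ Real.exp (K' * Real.log n ^ 2) := Real.one_le_exp (by positivity)
    match m with
    | 0 =>
      rw [pow_zero, inv_one, mul_one]
      nlinarith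
    | 1 =>
      rw [pow_one]
      nlinarith
    | (m + 2) =>
      have h1 := hK (m + 2) (by omega)
      have h2 : h (m + 2) * (ν ^ (m + 2))⁻¹ ≤ Real.exp (K * Real.log ((m + 2 : ℕ) : ℝ) ^ 2) := by
        rw [← div_eq_mul_inv, div_le_iff₀ (by positivity), mul_comm]
        exact h1
      have h3 : Real.exp (K * Real.log ((m + 2 : ℕ) : ℝ) ^ 2) ≤ Real.exp (K' * Real.log n ^ 2) := by
        apply Real.exp_le_exp.mpr
        have a1 : (2 : ℝ) ≤ ((m + 2 : ℕ) : ℝ) := by
          have : 2 ≤ m + 2 := by omega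
          exact_mod_cast this
        have a2 : ((m + 2 : ℕ) : ℝ) ≤ n := by exact_mod_cast hm
        have a3 : Real.log ((m + 2 : ℕ) : ℝ) ^ 2 ≤ Real.log n ^ 2 :=
          pow_le_pow_left₀ (Real.log_nonneg (by linarith)) (Real.log_le_log (by linarith) a2) 2
        calc K * Real.log ((m + 2 : ℕ) : ℝ) ^ 2 ≤ K' * Real.log ((m + 2 : ℕ) : ℝ) ^ 2 :=
              mul_le_mul_of_nonneg_right (le_max_left _ _) (sq_nonneg _)
          _ ≤ _ := mul_le_mul_of_nonneg_left a3 hK0
      have h4 : 1 ≤ H := by linarith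
      nlinarith
  set Q := H / (c0 * δ) with hQ
  have hQ0 : 0 < Q := by positivity
  set L' := 4 + K' + A + 3 * Q with hL'
  set L := 2 + 3 / 2 * L' with hL
  refine ⟨L, by positivity, ?_⟩
  intro n hn
  have hn2 : (2 : ℝ) ≤ n := by exact_mod_cast hn
  set l := Real.log n with hl
  have hl2 : (2 : ℝ) / 3 ≤ l := by
    have h4 := Real.log_two_gt_d9
    have h5 : Real.log 2 ≤ l := Real.log_le_log (by norm_num) hn2
    linarith
  set c := (1 + μ) / (3 + 2 * μ) with hc
  have hc0' : 0 < c := by positivity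
  have hc1 : c < 1 := by rw [hc, div_lt_one (by positivity)]; linarith
  have hpc : (2 + p) * c = 1 := by
    rw [hp, hc]
    field_simp
    ring
  -- the termwise bound
  have hterm : ∀ m ∈ (range (n + 1)).filter (fun m : ℕ => L * (√(n : ℝ) * l) ≤
      |(m : ℝ) - c * n|), h m * kc (m + 1) (n + 1) ≤
        μ ^ (n + 1) * (H * ν⁻¹ * Real.exp (K' * l ^ 2) * Real.exp (-((L' - 1) * l ^ 2))) := by
    intro m hm
    rw [mem_filter, mem_range] at hm
    obtain ⟨hm1, hm2⟩ := hm
    have hmn : m ≤ n := by omega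
    have hB : B p (m + 1) (n + 1) ≤ Real.exp (-((L' - 1) * l ^ 2)) := by
      unfold B
      split_ifs with h2
      · have hj : ((n + 1 - 2 * (m + 1) : ℕ) : ℝ) = (n : ℝ) + 1 - 2 * ((m : ℝ) + 1) := by
          rw [Nat.cast_sub h2]
          push_cast
          ring
        have hs1 : 1 ≤ √(n : ℝ) := by
          rw [Real.one_le_sqrt]
          linarith
        have hT : 1 / 2 ≤ √(n : ℝ) * l := by nlinarith
        have hsN : √((n + 1 : ℕ) : ℝ) ≤ 3 / 2 * √(n : ℝ) := by
          rw [show (3 : ℝ) / 2 * √(n : ℝ) = √((3 / 2) ^ 2 * n) by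
            rw [Real.sqrt_mul (by positivity), Real.sqrt_sq (by norm_num)]]
          apply Real.sqrt_le_sqrt
          push_cast
          linarith
        have hlN : Real.log ((n + 1 : ℕ) : ℝ) ≤ 2 * l := by
          rw [hl, ← Real.log_rpow (by linarith)]
          apply Real.log_le_log (by positivity)
          push_cast
          rw [Real.rpow_two]
          nlinarith
        have hlN0 : 0 ≤ Real.log ((n + 1 : ℕ) : ℝ) := by
          apply Real.log_nonneg
          push_cast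
          linarith
        have hlN1 : l ≤ Real.log ((n + 1 : ℕ) : ℝ) := by
          apply Real.log_le_log (by linarith)
          push_cast
          linarith
        have hprod : √((n + 1 : ℕ) : ℝ) * Real.log ((n + 1 : ℕ) : ℝ) ≤ 3 * (√(n : ℝ) * l) := by
          calc _ ≤ (3 / 2 * √(n : ℝ)) * (2 * l) := mul_le_mul hsN hlN hlN0 (by positivity)
            _ = _ := by ring
        have hfar : L' * (√((n + 1 : ℕ) : ℝ) * Real.log ((n + 1 : ℕ) : ℝ)) ≤
            |((n + 1 - 2 * (m + 1) : ℕ) : ℝ) - p * ((m + 1 : ℕ) : ℝ)| := by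
          have e1 : ((n + 1 - 2 * (m + 1) : ℕ) : ℝ) - p * ((m + 1 : ℕ) : ℝ) =
              -((2 + p) * (((m : ℝ) - c * n) + (1 - c))) := by
            rw [hj]
            push_cast
            linear_combination (-((n : ℝ) + 1)) * hpc
          rw [e1, abs_neg, abs_mul, abs_of_pos (by linarith : (0 : ℝ) < 2 + p)]
          have e2 : |(m : ℝ) - c * n| - 1 ≤ |((m : ℝ) - c * n) + (1 - c)| := by
            have a := abs_sub_abs_le_abs_sub ((m : ℝ) - c * n) (-(1 - c))
            rw [abs_neg, abs_of_pos (by linarith : (0 : ℝ) < 1 - c), sub_neg_eq_add] at a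
            linarith
          have hL0 : 0 ≤ L' := by positivity
          have e3 : L' * (√((n + 1 : ℕ) : ℝ) * Real.log ((n + 1 : ℕ) : ℝ)) ≤
              L' * (3 * (√(n : ℝ) * l)) := mul_le_mul_of_nonneg_left hprod hL0
          have e4 : L * (√(n : ℝ) * l) = 2 * (√(n : ℝ) * l) + 3 / 2 * L' * (√(n : ℝ) * l) := by
            rw [hL]; ring
          have e5 : 0 ≤ L' * (√(n : ℝ) * l) := by positivity
          have e6 : 0 ≤ |((m : ℝ) - c * n) + (1 - c)| := abs_nonneg _
          nlinarith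
        refine (far hp0 hp1 (n + 1) (m + 1) _ (by omega) (by omega)
          (log_le_sqrt (by positivity)) L' hfar).trans ?_
        apply Real.exp_le_exp.mpr
        have hsq : l ^ 2 ≤ Real.log ((n + 1 : ℕ) : ℝ) ^ 2 := pow_le_pow_left₀ (by linarith) hlN1 2
        have hL1 : 0 ≤ L' - 1 := by linarith
        nlinarith
      · exact (Real.exp_pos _).le
    rw [kc_eq hμ hν']
    have h3 := hHm n m hn hmn
    have hB0 := B_nonneg hp0 hp1 (m + 1) (n + 1)
    have e : h m * (μ ^ (n + 1) * ((ν ^ (m + 1))⁻¹ * B p (m + 1) (n + 1))) =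
        μ ^ (n + 1) * ((h m * (ν ^ m)⁻¹) * ν⁻¹ * B p (m + 1) (n + 1)) := by
      rw [pow_succ ν m, mul_inv]
      ring
    rw [e]
    apply mul_le_mul_of_nonneg_left _ (by positivity)
    calc (h m * (ν ^ m)⁻¹) * ν⁻¹ * B p (m + 1) (n + 1)
        ≤ (H * Real.exp (K' * l ^ 2)) * ν⁻¹ * Real.exp (-((L' - 1) * l ^ 2)) := by
          gcongr
      _ = _ := by ring
  refine (sum_le_card_nsmul _ _ _ hterm).trans ?_
  rw [nsmul_eq_mul]
  have hcard : (((range (n + 1)).filter (fun m : ℕ => L * (√(n : ℝ) * l) ≤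
      |(m : ℝ) - c * n|)).card : ℝ) ≤ Real.exp (3 * l ^ 2) := by
    have h1 := card_filter_le (range (n + 1)) (fun m : ℕ => L * (√(n : ℝ) * l) ≤
      |(m : ℝ) - c * n|)
    rw [card_range] at h1
    have h2 : ((n + 1 : ℕ) : ℝ) ≤ Real.exp (3 * l ^ 2) := by
      have h3 : (n : ℝ) ^ 2 = Real.exp (2 * l) := by
        rw [two_mul, Real.exp_add, hl, Real.exp_log (by linarith)]
        ring
      have h4 : Real.exp (2 * l) ≤ Real.exp (3 * l ^ 2) := by
        apply Real.exp_le_exp.mpr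
        nlinarith
      refine le_trans ?_ h4
      rw [← h3]
      push_cast
      nlinarith
    exact le_trans (by exact_mod_cast h1) h2
  have hQe : Q ≤ Real.exp (3 * Q * l ^ 2) := by
    have h1 := Real.add_one_le_exp (3 * Q * l ^ 2)
    have h2 : 1 ≤ 3 * l ^ 2 := by nlinarith
    nlinarith
  have hHQ : H = c0 * δ * Q := by
    rw [hQ]
    field_simp
  have hZn := hZ n (by omega)
  calc _ ≤ Real.exp (3 * l ^ 2) * (μ ^ (n + 1) * (H * ν⁻¹ * Real.exp (K' * l ^ 2) *
          Real.exp (-((L' - 1) * l ^ 2)))) := by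
        apply mul_le_mul_of_nonneg_right hcard (by positivity)
    _ = μ ^ (n + 1) * (c0 * ν⁻¹ * δ) * (Q * (Real.exp (3 * l ^ 2) * Real.exp (K' * l ^ 2) *
          Real.exp (-((L' - 1) * l ^ 2)))) := by
        rw [hHQ]
        ring
    _ ≤ μ ^ (n + 1) * (c0 * ν⁻¹ * δ) * (Real.exp (3 * Q * l ^ 2) * (Real.exp (3 * l ^ 2) *
          Real.exp (K' * l ^ 2) * Real.exp (-((L' - 1) * l ^ 2)))) := by
        gcongr
    _ = μ ^ (n + 1) * (c0 * ν⁻¹ * δ) * Real.exp (-(A * l ^ 2)) := by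
        rw [← Real.exp_add, ← Real.exp_add, ← Real.exp_add]
        congr 2
        rw [hL']
        ring
    _ ≤ ZZ h n * Real.exp (-(A * l ^ 2)) := by
        apply mul_le_mul_of_nonneg_right hZn (Real.exp_pos _).le
    _ = _ := mul_comm _ _

end Pool.Agent.D0H74.FM
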